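import Pool.Agent.Q152.QH.Scales

/-! # Strings of values of quadratic symbols at distinct primes: one index set -/

set_option autoImplicit false

namespace Pool.Agent.Q152.TW

open Finset MeasureTheory Pool.Agent.Q163.RP Pool.Agent.Q163.RX Pool.Agent.Q163.GC Pool.Agent.Q163.HC
open Pool.Agent.Q152.QT Pool.Agent.Q152.QH

open Classical in
/-- the number of the exceptional moduli for one weighted sum, with multiplicities -/
theorem exc_mult {ι : Type*} (k : ℕ) (hk : 1 ≤ k) (I : Finset ι) (v : ι → ℝ) (M : ι → ℕ)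
    (D : ℝ) (hD1 : 1 ≤ D) (hD : ∀ i ∈ I, (2 * (k : ℝ) - 1) ^ (od (M i)).card ≤ D)
    (μ : ℕ) (hμ : 1 ≤ μ) (hm : ∀ U, (I.filter fun i => od (M i) = U).card ≤ μ) (V : ℝ)
    (hV : ∑ i ∈ I, v i ^ 2 ≤ V) (Z n : ℕ) (hM : ∀ i ∈ I, M i ≠ 0) (hZ : ∀ i ∈ I, M i ≤ Z)
    (hn : I.card ≤ n) (P : ℕ) (hP : 4 * Z ^ (2 * k) * n ^ k ≤ P) (L : ℝ) (hL : 0 < L) :
    (((om P).filter fun q => L * (4 * (D * μ) * V) <
      (∑ i ∈ I, v i * (jacobiSym (M i : ℤ) q : ℝ)) ^ 2).card : ℝ) ≤ P / L ^ k := by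
  have hV0 : 0 ≤ V := (sum_nonneg fun _ _ => sq_nonneg _).trans hV
  have hP0 : (0 : ℝ) ≤ P := Nat.cast_nonneg _
  have hPL : (0 : ℝ) ≤ P / L ^ k := by positivity
  have hμR : (1 : ℝ) ≤ μ := by exact_mod_cast hμ
  have hDμ : 1 ≤ D * μ := one_le_mul_of_one_le_of_one_le hD1 hμR
  rcases hV0.eq_or_lt with h0 | hVp
  · -- the trivial case
    have hv : ∀ i ∈ I, v i = 0 := by
      intro i hi
      have h1 : ∑ i ∈ I, v i ^ 2 = 0 := le_antisymm (by rw [← h0] at hV; exact hV)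
        (sum_nonneg fun _ _ => sq_nonneg _)
      exact pow_eq_zero_iff (two_ne_zero) |>.1 ((sum_eq_zero_iff_of_nonneg fun _ _ => sq_nonneg _).1 h1 i hi)
    have he : ((om P).filter fun q => L * (4 * (D * μ) * V) <
        (∑ i ∈ I, v i * (jacobiSym (M i : ℤ) q : ℝ)) ^ 2) = ∅ := by
      rw [filter_eq_empty_iff]
      intro q _
      rw [← h0, sum_eq_zero fun i hi => by rw [hv i hi, zero_mul]]
      norm_num
    rw [he, card_empty, Nat.cast_zero]
    exact hPL
  · have h1 := qmom k hk I v M D hD μ hm (2 * (D * μ) * V) (by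
      have : μ * ∑ i ∈ I, v i ^ 2 ≤ μ * V := mul_le_mul_of_nonneg_left hV (by linarith)
      have h2 : D * (μ * ∑ i ∈ I, v i ^ 2) ≤ D * (μ * V) := mul_le_mul_of_nonneg_left this (by linarith)
      have : 0 < D * μ * V := by positivity
      linarith) Z hM hZ P
    have h2 : (∑ i ∈ I, |v i|) ^ 2 ≤ n * V := by
      have h3 : (∑ i ∈ I, |v i|) ^ 2 ≤ (I.card : ℝ) * ∑ i ∈ I, |v i| ^ 2 := sq_sum_le_card_mul_sum_sq
      simp only [sq_abs] at h3
      refine h3.trans (mul_le_mul (by exact_mod_cast hn) hV (sum_nonneg fun _ _ => sq_nonneg _)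
        (Nat.cast_nonneg _))
    have h4 : 4 * (Z : ℝ) ^ (2 * k) * (∑ i ∈ I, |v i|) ^ (2 * k) ≤ P * V ^ k := by
      rw [pow_mul (∑ i ∈ I, |v i|)]
      calc 4 * (Z : ℝ) ^ (2 * k) * ((∑ i ∈ I, |v i|) ^ 2) ^ k ≤
          4 * (Z : ℝ) ^ (2 * k) * (n * V) ^ k := by gcongr
        _ = (4 * (Z : ℝ) ^ (2 * k) * (n : ℝ) ^ k) * V ^ k := by rw [mul_pow]; ring
        _ ≤ P * V ^ k := mul_le_mul_of_nonneg_right (by exact_mod_cast hP) (by positivity)
    have h5 : P * (2 * (D * μ) * V) ^ k + P * V ^ k ≤ P * (4 * (D * μ) * V) ^ k := by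
      rw [← mul_add]
      refine mul_le_mul_of_nonneg_left ?_ hP0
      have e1 : V ^ k ≤ (2 * (D * μ) * V) ^ k := by
        refine pow_le_pow_left₀ hV0 ?_ _
        nlinarith
      have e2 : (4 * (D * μ) * V) ^ k = 2 ^ k * (2 * (D * μ) * V) ^ k := by
        rw [← mul_pow]; ring
      have e3 : (2 : ℝ) ≤ 2 ^ k := by
        calc (2 : ℝ) = 2 ^ 1 := (pow_one _).symm
          _ ≤ 2 ^ k := pow_le_pow_right₀ one_le_two hk
      have e4 : 0 ≤ (2 * (D * μ) * V) ^ k := by positivity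
      rw [e2]
      nlinarith
    have h6 : 0 < 4 * (D * μ) * V := by positivity
    rw [le_div_iff₀ (by positivity)]
    have h7 : (((om P).filter fun q => L * (4 * (D * μ) * V) <
        (∑ i ∈ I, v i * (jacobiSym (M i : ℤ) q : ℝ)) ^ 2).card : ℝ) * (L * (4 * (D * μ) * V)) ^ k ≤
        P * (4 * (D * μ) * V) ^ k := by
      rw [← nsmul_eq_mul, ← sum_const]
      refine (sum_le_sum (g := fun q => (∑ i ∈ I, v i * (jacobiSym (M i : ℤ) q : ℝ)) ^ (2 * k))
        fun q hq => ?_).trans ?_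
      · rw [pow_mul]
        exact pow_le_pow_left₀ (by positivity) (mem_filter.1 hq).2.le _
      · refine (sum_le_sum_of_subset_of_nonneg (filter_subset _ _) fun q _ _ => ?_).trans
          (h1.trans ((add_le_add le_rfl h4).trans h5))
        rw [pow_mul]
        positivity
    rw [mul_pow, ← mul_assoc] at h7
    exact le_of_mul_le_mul_right h7 (by positivity)

lemma od_mem (n p : ℕ) : p ∈ od n ↔ Odd (n.factorization p) := by
  unfold od
  rw [mem_filter]
  refine ⟨fun h => h.2, fun h => ⟨?_, h⟩⟩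
  rw [← Nat.support_factorization, Finsupp.mem_support_iff]
  intro h0
  rw [h0] at h
  exact absurd h (by decide)

lemma od_mul_sq {a b : ℕ} (ha : a ≠ 0) (hb : b ≠ 0) : od (a * b ^ 2) = od a := by
  ext p
  rw [od_mem, od_mem, Nat.factorization_mul ha (pow_ne_zero 2 hb), Nat.factorization_pow]
  simp only [Finsupp.add_apply, Finsupp.smul_apply, smul_eq_mul]
  rw [Nat.odd_add]
  simp

lemma od_prod {Ω : Type*} [DecidableEq Ω] (W : Finset Ω) (y : Ω → ℕ) (hp : ∀ u ∈ W, (y u).Prime)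
    (hy : Set.InjOn y W) : od (∏ u ∈ W, y u) = W.image y := by
  ext p
  rw [od_mem, Nat.factorization_prod fun u hu => (hp u hu).ne_zero, Finsupp.finsetSum_apply, mem_image]
  by_cases h : ∃ a ∈ W, y a = p
  · simp only [h, iff_true]
    obtain ⟨a, ha, hap⟩ := h
    rw [sum_eq_single a]
    · rw [(hp a ha).factorization, hap, Finsupp.single_eq_same]
      exact odd_one
    · intro b hb hba
      rw [(hp b hb).factorization, Finsupp.single_apply, if_neg]
      intro h1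
      exact hba (hy hb ha (h1.trans hap.symm))
    · exact fun h => absurd ha h
  · simp only [h, iff_false]
    rw [sum_eq_zero]
    · decide
    · intro b hb
      rw [(hp b hb).factorization, Finsupp.single_apply, if_neg]
      exact fun h1 => h ⟨b, hb, h1⟩

/-- the integer whose symbol is the product of the symbols over `W`, zero if one over `U` is zero -/
def Mx {Ω : Type*} [DecidableEq Ω] (x : ℕ → Ω → ℕ) (U W : Finset Ω) (i : ℕ) : ℕ :=
  (∏ u ∈ W, x i u) * (∏ u ∈ U \ W, x i u) ^ 2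

lemma od_Mx {Ω : Type*} [DecidableEq Ω] (x : ℕ → Ω → ℕ) (U W : Finset Ω) (hWU : W ⊆ U) (i : ℕ)
    (hp : ∀ u ∈ U, (x i u).Prime) (hy : Set.InjOn (x i) U) : od (Mx x U W i) = W.image (x i) := by
  unfold Mx
  rw [od_mul_sq]
  · exact od_prod W _ (fun u hu => hp u (hWU hu)) (hy.mono (by exact_mod_cast hWU))
  · exact prod_ne_zero_iff.2 fun u hu => (hp u (hWU hu)).ne_zero
  · exact prod_ne_zero_iff.2 fun u hu => (hp u (sdiff_subset hu)).ne_zero

lemma mult_le {Ω : Type*} [DecidableEq Ω] (I : Finset ℕ) (W : Finset Ω) (x : ℕ → Ω → ℕ) (w : Ω) (hw : w ∈ W)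
    (hinj : Set.InjOn (fun i => x i w) I) (O : Finset ℕ) :
    (I.filter fun i => W.image (x i) = O).card ≤ W.card := by
  classical
  rcases (I.filter fun i => W.image (x i) = O).eq_empty_or_nonempty with h | ⟨i0, hi0⟩
  · rw [h, card_empty]
    exact Nat.zero_le _
  · have h1 : (I.filter fun i => W.image (x i) = O).card ≤ O.card := by
      refine card_le_card_of_injOn (fun i => x i w) (fun i hi => ?_) (hinj.mono ?_)
      · have h2 := (mem_filter.1 (mem_coe.1 hi)).2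
        rw [← h2]
        exact mem_coe.2 (mem_image_of_mem _ hw)
      · exact_mod_cast filter_subset _ _
    refine h1.trans ?_
    rw [← (mem_filter.1 hi0).2]
    exact card_image_le

open Classical in
/-- the exceptional moduli for one index set and one pair of sets of places -/
theorem exc_str {Ω : Type*} [DecidableEq Ω] (κ : ℕ) (hκ : 1 ≤ κ) (I : Finset ℕ) (U W : Finset Ω) (hWU : W ⊆ U)
    (hW : W.Nonempty) (x : ℕ → Ω → ℕ) (hp : ∀ i ∈ I, ∀ u ∈ U, (x i u).Prime)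
    (hinj : ∀ i ∈ I, Set.InjOn (x i) U) (hinj2 : ∀ u ∈ U, Set.InjOn (fun i => x i u) I) (Z R n : ℕ)
    (hZ1 : 1 ≤ Z) (hZ : ∀ i ∈ I, ∀ u ∈ U, x i u ≤ Z) (hR : U.card ≤ R) (hn : I.card ≤ n) (V : ℝ)
    (hV : (I.card : ℝ) ≤ V) (P : ℕ)
    (hP : 4 * (Z ^ (2 * R)) ^ (2 * κ) * n ^ κ ≤ P) (L : ℝ) (hL : 0 < L) :
    (((om P).filter fun q => L * (4 * ((2 * (κ : ℝ)) ^ U.card * R) * V) <
      (∑ i ∈ I, (jacobiSym (Mx x U W i : ℤ) q : ℝ)) ^ 2).card : ℝ) ≤ P / L ^ κ := by
  obtain ⟨w, hw⟩ := hW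
  have hκR : (1 : ℝ) ≤ κ := by exact_mod_cast hκ
  have hWR : W.card ≤ R := (card_le_card hWU).trans hR
  have hW1 : 1 ≤ W.card := card_pos.2 ⟨w, hw⟩
  have h := exc_mult κ hκ I (fun _ => 1) (Mx x U W) ((2 * (κ : ℝ)) ^ U.card)
    (one_le_pow₀ (by linarith))
    (fun i hi => by
      rw [od_Mx x U W hWU i (hp i hi) (hinj i hi)]
      have h1 : (W.image (x i)).card ≤ U.card := card_image_le.trans (card_le_card hWU)
      calc (2 * (κ : ℝ) - 1) ^ (W.image (x i)).card ≤ (2 * (κ : ℝ)) ^ (W.image (x i)).card :=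
            pow_le_pow_left₀ (by linarith) (by linarith) _
        _ ≤ (2 * (κ : ℝ)) ^ U.card := pow_le_pow_right₀ (by linarith) h1)
    R (hW1.trans hWR)
    (fun O => by
      refine le_trans (le_of_eq ?_) ((mult_le I W x w hw (hinj2 w (hWU hw)) O).trans hWR)
      refine congrArg card (filter_congr fun i hi => ?_)
      rw [od_Mx x U W hWU i (hp i hi) (hinj i hi)])
    V (by
      simp only [one_pow, sum_const, nsmul_eq_mul, mul_one]
      exact hV) (Z ^ (2 * R)) n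
    (fun i hi => by
      unfold Mx
      refine mul_ne_zero (prod_ne_zero_iff.2 fun u hu => (hp i hi u (hWU hu)).ne_zero)
        (pow_ne_zero 2 (prod_ne_zero_iff.2 fun u hu => (hp i hi u (sdiff_subset hu)).ne_zero)))
    (fun i hi => by
      unfold Mx
      have h1 : ∏ u ∈ W, x i u ≤ Z ^ W.card := by
        refine (prod_le_prod' fun u hu => hZ i hi u (hWU hu)).trans ?_
        rw [prod_const]
      have h2 : ∏ u ∈ U \ W, x i u ≤ Z ^ (U \ W).card := by
        refine (prod_le_prod' fun u hu => hZ i hi u (sdiff_subset hu)).trans ?_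
        rw [prod_const]
      have h3 : (U \ W).card + W.card = U.card := card_sdiff_add_card_eq_card hWU
      calc (∏ u ∈ W, x i u) * (∏ u ∈ U \ W, x i u) ^ 2 ≤ Z ^ W.card * (Z ^ (U \ W).card) ^ 2 := by gcongr
        _ = Z ^ (W.card + (U \ W).card * 2) := by rw [← pow_mul, ← pow_add]
        _ ≤ Z ^ (2 * R) := Nat.pow_le_pow_right hZ1 (by omega))
    hn P hP L hL
  refine le_trans (le_of_eq ?_) h
  congr 2
  ext q
  simp only [one_mul]

/-- the expansion of the indicator of a string of signs -/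
lemma sign_expand {Ω : Type*} [DecidableEq Ω] (U : Finset Ω) (x : ℕ → Ω → ℕ) (e : Ω → ℤ)
    (he : ∀ u, e u = 1 ∨ e u = -1) (m i : ℕ) :
    ∑ W ∈ U.powerset, (∏ u ∈ W, e u) * jacobiSym (Mx x U W i : ℤ) m =
      if ∀ u ∈ U, jacobiSym (x i u : ℤ) m = e u then 2 ^ U.card else 0 := by
  have h1 : ∀ W ∈ U.powerset, (∏ u ∈ W, e u) * jacobiSym (Mx x U W i : ℤ) m =
      (∏ u ∈ W, e u * jacobiSym (x i u : ℤ) m) * ∏ u ∈ U \ W, jacobiSym (x i u : ℤ) m ^ 2 := by
    intro W _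
    unfold Mx
    rw [Nat.cast_mul, Nat.cast_pow, jacobiSym.mul_left, jacobiSym.pow_left, jac_prod, jac_prod, prod_mul_distrib,
      prod_pow, mul_assoc]
  rw [sum_congr rfl h1, ← prod_add]
  split_ifs with h
  · rw [prod_congr rfl fun u hu => by rw [h u hu], ← prod_const]
    refine prod_congr rfl fun u _ => ?_
    rcases he u with h2 | h2 <;> rw [h2] <;> norm_num
  · push Not at h
    obtain ⟨u, hu, hne⟩ := h
    refine prod_eq_zero hu ?_
    rcases he u with h2 | h2 <;> rcases jacobiSym.trichotomy (x i u : ℤ) m with h3 | h3 | h3 <;>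
      first
        | exact absurd (h3.trans h2.symm) hne
        | (rw [h2, h3]; norm_num)

lemma empty_term {Ω : Type*} [DecidableEq Ω] (U : Finset Ω) (x : ℕ → Ω → ℕ) (m i : ℕ) (hm : m ≠ 0) :
    jacobiSym (Mx x U ∅ i : ℤ) m = if ∀ u ∈ U, (x i u).Coprime m then 1 else 0 := by
  unfold Mx
  rw [prod_empty, one_mul, sdiff_empty, Nat.cast_pow, jacobiSym.pow_left, jac_prod]
  split_ifs with h
  · rw [← prod_pow]
    refine prod_eq_one fun u hu => ?_
    refine jacobiSym.sq_one ?_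
    rw [Int.gcd_natCast_natCast]
    exact h u hu
  · push Not at h
    obtain ⟨u, hu, hne⟩ := h
    rw [sq_eq_zero_iff]
    refine prod_eq_zero hu ?_
    rw [jacobiSym.eq_zero_iff]
    refine ⟨hm, ?_⟩
    rw [Int.gcd_natCast_natCast]
    exact hne

/-- **the counting formula** -/
theorem pattern {Ω : Type*} [DecidableEq Ω] (I : Finset ℕ) (U : Finset Ω) (x : ℕ → Ω → ℕ) (e : Ω → ℤ)
    (he : ∀ u, e u = 1 ∨ e u = -1) (m : ℕ) (hm : m ≠ 0) (K : ℝ)
    (hK : ∀ W, W ⊆ U → W.Nonempty → |∑ i ∈ I, (jacobiSym (Mx x U W i : ℤ) m : ℝ)| ≤ K) (hK0 : 0 ≤ K) :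
    |((I.filter fun i => ∀ u ∈ U, jacobiSym (x i u : ℤ) m = e u).card : ℝ) -
      ((I.filter fun i => ∀ u ∈ U, (x i u).Coprime m).card : ℝ) / 2 ^ U.card| ≤ K := by
  have h1 : (∑ W ∈ U.powerset, (∏ u ∈ W, e u) * ∑ i ∈ I, jacobiSym (Mx x U W i : ℤ) m) =
      2 ^ U.card * ((I.filter fun i => ∀ u ∈ U, jacobiSym (x i u : ℤ) m = e u).card : ℤ) := by
    simp_rw [mul_sum]
    rw [sum_comm, sum_congr rfl fun i _ => sign_expand U x e he m i, ← sum_filter, sum_const, nsmul_eq_mul,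
      mul_comm]
  have h2 : ∑ i ∈ I, jacobiSym (Mx x U ∅ i : ℤ) m =
      ((I.filter fun i => ∀ u ∈ U, (x i u).Coprime m).card : ℤ) := by
    rw [sum_congr rfl fun i _ => empty_term U x m i hm, ← sum_filter, sum_const, nsmul_eq_mul, mul_one]
  have h3 : ∑ W ∈ U.powerset, (∏ u ∈ W, e u) * ∑ i ∈ I, jacobiSym (Mx x U W i : ℤ) m =
      (∑ W ∈ U.powerset.erase ∅, (∏ u ∈ W, e u) * ∑ i ∈ I, jacobiSym (Mx x U W i : ℤ) m) +
        ((I.filter fun i => ∀ u ∈ U, (x i u).Coprime m).card : ℤ) := by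
    rw [← sum_erase_add _ _ (empty_mem_powerset U), prod_empty, one_mul, h2]
  rw [h3] at h1
  have h4 : (∑ W ∈ U.powerset.erase ∅, ((∏ u ∈ W, e u : ℤ) : ℝ) *
      ∑ i ∈ I, (jacobiSym (Mx x U W i : ℤ) m : ℝ)) +
        ((I.filter fun i => ∀ u ∈ U, (x i u).Coprime m).card : ℝ) =
      2 ^ U.card * ((I.filter fun i => ∀ u ∈ U, jacobiSym (x i u : ℤ) m = e u).card : ℝ) := by
    have h5 := congrArg (fun z : ℤ => (z : ℝ)) h1
    push_cast at h5 ⊢
    exact h5
  have h6 : |∑ W ∈ U.powerset.erase ∅, ((∏ u ∈ W, e u : ℤ) : ℝ) *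
      ∑ i ∈ I, (jacobiSym (Mx x U W i : ℤ) m : ℝ)| ≤ 2 ^ U.card * K := by
    refine (abs_sum_le_sum_abs _ _).trans ?_
    have h7 : ∀ W ∈ U.powerset.erase ∅, |((∏ u ∈ W, e u : ℤ) : ℝ) *
        ∑ i ∈ I, (jacobiSym (Mx x U W i : ℤ) m : ℝ)| ≤ K := by
      intro W hW
      rw [mem_erase, mem_powerset] at hW
      rw [abs_mul]
      have h8 : |((∏ u ∈ W, e u : ℤ) : ℝ)| = 1 := by
        rw [Int.cast_prod, abs_prod]
        refine prod_eq_one fun u _ => ?_
        rcases he u with h | h <;> rw [h] <;> norm_num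
      rw [h8, one_mul]
      exact hK W hW.2 (nonempty_iff_ne_empty.2 hW.1)
    refine (sum_le_sum h7).trans ?_
    rw [sum_const, nsmul_eq_mul]
    refine mul_le_mul_of_nonneg_right ?_ hK0
    have h8 : (U.powerset.erase ∅).card ≤ 2 ^ U.card := by
      rw [← card_powerset]
      exact card_le_card (erase_subset _ _)
    exact_mod_cast h8
  have h9 : ((I.filter fun i => ∀ u ∈ U, jacobiSym (x i u : ℤ) m = e u).card : ℝ) -
      ((I.filter fun i => ∀ u ∈ U, (x i u).Coprime m).card : ℝ) / 2 ^ U.card =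
      (∑ W ∈ U.powerset.erase ∅, ((∏ u ∈ W, e u : ℤ) : ℝ) *
        ∑ i ∈ I, (jacobiSym (Mx x U W i : ℤ) m : ℝ)) / 2 ^ U.card := by
    rw [eq_div_iff (by positivity), sub_mul, div_mul_cancel₀ _ (by positivity)]
    linarith
  rw [h9, abs_div, abs_of_pos (show (0 : ℝ) < 2 ^ U.card by positivity), div_le_iff₀ (by positivity)]
  linarith

end Pool.Agent.Q152.TW
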